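import Pool.Agent.V11302.Rem5

/-!
MP_376bf0_nt, Q1: for every `j ≥ 2` the sequence `s_j(n) / n` does not converge.

`Pool.Agent.V11302.Rem.S j n` is the iterated remainder set: `S 0 n = {1, ..., ⌊n/2⌋}` and
`S (j+1) n = {n mod k : k ∈ S j n, k ≠ 0}`.
-/

open Filter Topology Pool.Agent.V11302.Rem

theorem Pool.Agent.Results.MP_376bf0_nt.NonConvergence.result :
    ∀ j : ℕ, 2 ≤ j →
      liminf (fun n : ℕ => ((S j n).card : ℝ) / (n : ℝ)) atTop <
        limsup (fun n : ℕ => ((S j n).card : ℝ) / (n : ℝ)) atTop ∧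
      ¬ ∃ L : ℝ, Tendsto (fun n : ℕ => ((S j n).card : ℝ) / (n : ℝ)) atTop (𝓝 L) :=
  fun j hj => ⟨liminf_lt_limsup j hj, not_tendsto j hj⟩
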